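import Pool.Agent.H16.MK.KTop

/-!
# MP_c844e7 (Martio's problem): a bound for the inner dilatation by the local index

If the image of the branch set is contained, near a branch point `x₀` of local index at least `m`,
in a `C¹` submanifold of codimension two, then the inner dilatation is at least `m c_N`, `N ≥ 3`,
where `c_3 = 5/8`, `c_4 = c_5 = 4/5` and `c_N = 1 - 3 / (2 (N - 1) (N - 4))` for `N ≥ 6`.  The branch
set itself may be wild.
-/

set_option autoImplicit false

namespace Pool.Agent.Results.MP_c844e7_an.LocalIndexBound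

/-- Euclidean `N`-space. -/
abbrev Sp (N : ℕ) : Type := EuclideanSpace ℝ (Fin N)

/-- `f` is injective on some neighbourhood of `x`; for an open map the points of `D` where this
fails form the branch set `B_f`. -/
def LocInj {N : ℕ} (f : Sp N → Sp N) (x : Sp N) : Prop := ∃ W ∈ nhds x, Set.InjOn f W

/-- `f` is continuous, open and discrete on `D` (as every nonconstant quasiregular map of a
domain). -/
structure OpenDiscrete {N : ℕ} (f : Sp N → Sp N) (D : Set (Sp N)) : Prop where
  cont : ContinuousOn f D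
  opn : ∀ O ⊆ D, IsOpen O → IsOpen (f '' O)
  disc : ∀ x ∈ D, ∃ W ∈ nhds x, ∀ z ∈ W, f z = f x → z = x

/-- Off its branch set `f` is differentiable with non-zero Jacobian, and its inner dilatation is at
most `K`: `|J(x, f)| |h|^N ≤ K |f'(x) h|^N`. -/
def RegularOff {N : ℕ} (f : Sp N → Sp N) (D : Set (Sp N)) (K : ℝ) : Prop :=
  ∀ x ∈ D, LocInj f x → DifferentiableAt ℝ f x ∧ (fderiv ℝ f x).det ≠ 0 ∧
    ∀ h : Sp N, |(fderiv ℝ f x).det| * ‖h‖ ^ N ≤ K * ‖fderiv ℝ f x h‖ ^ N

/-- The local index of `f` at `x` is at least `m`: every neighbourhood of `x` contains `m` points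
with the same image. -/
def IndexGE {N : ℕ} (f : Sp N → Sp N) (x : Sp N) (m : ℕ) : Prop :=
  ∀ W ∈ nhds x, ∃ y, (m : ℕ∞) ≤ (W ∩ f ⁻¹' {y}).encard

/-- The constant `c_N`. -/
noncomputable def cN (N : ℕ) : ℝ :=
  if N = 3 then 5 / 8 else if N ≤ 5 then 4 / 5 else 1 - 3 / (2 * ((N : ℝ) - 1) * ((N : ℝ) - 4))

theorem cN_eq (n : ℕ) : cN (n + 2) = MK.cb n := by
  unfold cN MK.cb
  have e : ((n + 2 : ℕ) : ℝ) - 1 = (n : ℝ) + 1 := by push_cast; ring
  have e' : ((n + 2 : ℕ) : ℝ) - 4 = (n : ℝ) - 2 := by push_cast; ring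
  have e1 : (n + 2 = 3) = (n = 1) := by simp
  have e2 : (n + 2 ≤ 5) = (n ≤ 3) := by simp
  rw [e, e']
  simp only [e1, e2]

/-- Let `x₀` be a branch point of `f` of local index at least `m`, and let the image of the branch
set near `x₀` lie on the zero set of a map `H` to the plane, of class `C¹` and with surjective
derivative at `f x₀` (a `C¹` submanifold of codimension two).  Then `m c_N ≤ K`. -/
theorem result {N : ℕ} (hN : 3 ≤ N) {D : Set (Sp N)} (hD : IsOpen D) {f : Sp N → Sp N} {K : ℝ}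
    (hf : OpenDiscrete f D) (hK : RegularOff f D K) {x₀ : Sp N} (hx₀ : x₀ ∈ D)
    (hB : ¬ LocInj f x₀) {m : ℕ} (hm : IndexGE f x₀ m) {H : Sp N → Sp 2}
    (hH : ContDiffAt ℝ 1 H (f x₀)) (hs : Function.Surjective (fderiv ℝ H (f x₀)))
    {U : Set (Sp N)} (hU : U ∈ nhds x₀) (hflat : ∀ x ∈ U, x ∈ D → ¬ LocInj f x → H (f x) = 0) :
    m * cN N ≤ K := by
  obtain ⟨n, rfl⟩ : ∃ n, N = n + 2 := ⟨N - 2, by omega⟩
  have hn : 1 ≤ n := by omega
  have h0 : H (f x₀) = 0 := hflat x₀ (mem_of_mem_nhds hU) hx₀ hB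
  have hsub : D ∩ interior U ⊆ D := Set.inter_subset_left
  have key := MK.c1_bound3 (n := n) hn (D := D ∩ interior U) (f := f) (K := K)
    (hD.inter isOpen_interior) (hf.cont.mono hsub) (fun O hO => hf.opn O (hO.trans hsub))
    (fun x hx => hf.disc x hx.1) ⟨hx₀, mem_interior_iff_mem_nhds.2 hU⟩ hH hs h0 ?_ m hm
  · rw [cN_eq]
    exact key
  · intro x hx hne
    have hl : LocInj f x := by
      by_contra hc
      exact hne (hflat x (interior_subset hx.2) hx.1 hc)
    obtain ⟨h1, h2, h3⟩ := hK x hx.1 hl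
    refine ⟨hl, h1, h2, fun h hh => ?_⟩
    have := h3 h
    rwa [hh, one_pow, mul_one] at this

end Pool.Agent.Results.MP_c844e7_an.LocalIndexBound
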