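import Pool.Agent.H16.MK.KTop
import Pool.Agent.H16.MT.Bai

/-!
# MP_c844e7 (Martio's problem): maps whose branch set has a piecewise smooth image

If the image of the branch set is contained in countably many `C¹` submanifolds of codimension two
(for instance in a simplicial complex of codimension two), and the inner dilatation is less than
`2 c_N`, then the branch set is empty, `N ≥ 3`.  Here `2 c_3 = 5/4`, `2 c_4 = 2 c_5 = 8/5` and
`2 c_N = 2 - 3 / ((N - 1) (N - 4))` for `N ≥ 6`.  The branch set itself may be wild.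
-/

set_option autoImplicit false

namespace Pool.Agent.Results.MP_c844e7_an.SmoothBranchImage

/-- Euclidean `N`-space. -/
abbrev Sp (N : ℕ) : Type := EuclideanSpace ℝ (Fin N)

/-- `f` is injective on some neighbourhood of `x`; for an open map the points of `D` where this
fails form the branch set `B_f`. -/
def LocInj {N : ℕ} (f : Sp N → Sp N) (x : Sp N) : Prop := ∃ W ∈ nhds x, Set.InjOn f W

/-- `f` is continuous, open and discrete on `D` (as every nonconstant quasiregular map of a
domain). -/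
structure OpenDiscrete {N : ℕ} (f : Sp N → Sp N) (D : Set (Sp N)) : Prop where
  cont : ContinuousOn f D
  opn : ∀ O ⊆ D, IsOpen O → IsOpen (f '' O)
  disc : ∀ x ∈ D, ∃ W ∈ nhds x, ∀ z ∈ W, f z = f x → z = x

/-- Off its branch set `f` is differentiable with non-zero Jacobian, and its inner dilatation is at
most `K`: `|J(x, f)| |h|^N ≤ K |f'(x) h|^N`. -/
def RegularOff {N : ℕ} (f : Sp N → Sp N) (D : Set (Sp N)) (K : ℝ) : Prop :=
  ∀ x ∈ D, LocInj f x → DifferentiableAt ℝ f x ∧ (fderiv ℝ f x).det ≠ 0 ∧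
    ∀ h : Sp N, |(fderiv ℝ f x).det| * ‖h‖ ^ N ≤ K * ‖fderiv ℝ f x h‖ ^ N

/-- `Z` is contained in the union of countably many closed sets `Y j`, such that near every point
of `Y j` the set `Y j` lies on the zero set of a map `H j` to the plane which is of class `C¹` with
surjective derivative at the points of `Y j`.  Every countable union of `C¹` submanifolds of
codimension two has this property. -/
def CodimTwo {N : ℕ} (Z : Set (Sp N)) : Prop :=
  ∃ (Y : ℕ → Set (Sp N)) (H : ℕ → Sp N → Sp 2), Z ⊆ ⋃ j, Y j ∧ ∀ j, IsClosed (Y j) ∧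
    ∀ z ∈ Y j, H j z = 0 ∧ ContDiffAt ℝ 1 (H j) z ∧ Function.Surjective (fderiv ℝ (H j) z)

/-- The constant `c_N`. -/
noncomputable def cN (N : ℕ) : ℝ :=
  if N = 3 then 5 / 8 else if N ≤ 5 then 4 / 5 else 1 - 3 / (2 * ((N : ℝ) - 1) * ((N : ℝ) - 4))

theorem cN_eq (n : ℕ) : cN (n + 2) = MK.cb n := by
  unfold cN MK.cb
  have e : ((n + 2 : ℕ) : ℝ) - 1 = (n : ℝ) + 1 := by push_cast; ring
  have e' : ((n + 2 : ℕ) : ℝ) - 4 = (n : ℝ) - 2 := by push_cast; ring
  have e1 : (n + 2 = 3) = (n = 1) := by simp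
  have e2 : (n + 2 ≤ 5) = (n ≤ 3) := by simp
  rw [e, e']
  simp only [e1, e2]

/-- Let `f` be open and discrete on `D`, differentiable with non-zero Jacobian off the branch set,
where the image of the branch set is contained in countably many `C¹` submanifolds of codimension
two.  If the inner dilatation is less than `2 c_N`, then `f` is locally injective. -/
theorem result {N : ℕ} (hN : 3 ≤ N) {D : Set (Sp N)} (hD : IsOpen D) {f : Sp N → Sp N} {K : ℝ}
    (hf : OpenDiscrete f D) (hK : RegularOff f D K)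
    (hZ : CodimTwo (f '' {x | x ∈ D ∧ ¬ LocInj f x}))
    (hlt : K < 2 * cN N) : ∀ x ∈ D, LocInj f x := by
  obtain ⟨n, rfl⟩ : ∃ n, N = n + 2 := ⟨N - 2, by omega⟩
  have hn : 1 ≤ n := by omega
  by_contra hcon
  push Not at hcon
  obtain ⟨Y, H, hY, hYH⟩ := hZ
  obtain ⟨j, x₀, U, hU, hx₀, hUD, hB, hUY⟩ := MB.branch_baire hD hf.cont Y (fun j => (hYH j).1)
    (fun x hx hb => hY ⟨x, ⟨hx, hb⟩, rfl⟩) (by
      obtain ⟨x, hx, hb⟩ := hcon
      exact ⟨x, hx, hb⟩)
  obtain ⟨h0, hH, hs⟩ := (hYH j).2 (f x₀) (hUY x₀ hx₀ hB)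
  have key := MK.c1_bound3 (n := n) hn (D := U) (f := f) (K := K)
    hU (hf.cont.mono hUD) (fun O hO => hf.opn O (hO.trans hUD))
    (fun x hx => hf.disc x (hUD hx)) hx₀ hH hs h0 ?_ 2 ?_
  · rw [cN_eq] at hlt
    push_cast at key
    linarith
  · intro x hx hne
    have hl : LocInj f x := by
      by_contra hc
      exact hne ((hYH j).2 (f x) (hUY x hx hc)).1
    obtain ⟨h1, h2, h3⟩ := hK x (hUD hx) hl
    refine ⟨hl, h1, h2, fun h hh => ?_⟩
    have := h3 h
    rwa [hh, one_pow, mul_one] at this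
  · intro W hW
    have hni : ¬ Set.InjOn f W := fun hi => hB ⟨W, hW, hi⟩
    unfold Set.InjOn at hni
    push Not at hni
    obtain ⟨a, ha, b, hb, hab, hne⟩ := hni
    refine ⟨f a, ?_⟩
    have hsub : ({a, b} : Set (Sp (n + 2))) ⊆ W ∩ f ⁻¹' {f a} := by
      rintro z (rfl | rfl)
      · exact ⟨ha, rfl⟩
      · exact ⟨hb, hab.symm⟩
    calc ((2 : ℕ) : ℕ∞) = ({a, b} : Set (Sp (n + 2))).encard := by
          rw [Set.encard_pair hne]; rfl
      _ ≤ _ := Set.encard_le_encard hsub

end Pool.Agent.Results.MP_c844e7_an.SmoothBranchImage
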